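import Pool.Agent.H742Z.GP.Defs2

set_option autoImplicit false

open scoped ENNReal
open MeasureTheory ProbabilityTheory Filter Topology Set

namespace Pool.Agent.H742Z.GP

universe u

namespace Det

variable {d : ℕ}

lemma good_shift {Q U : Set (V d)} (h : Good Adj Q U) (z : V d) :
    Good Adj {u | u + -z ∈ Q} {u | u + -z ∈ U} := by
  intro x l hx hn hc
  have h1 : IsSAW l.length x l := ⟨rfl, hn, hc⟩
  have h2 := h1.add (-z)
  obtain ⟨l', hn', hc', h3, h4⟩ := h (x + -z) _ hx h2.2.1 h2.2.2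
  have h5 : IsSAW l'.length (x + -z) l' := ⟨rfl, hn', hc'⟩
  have h6 := h5.add z
  rw [neg_add_cancel_right] at h6
  have hm : ∀ (m : List (V d)) (y u : V d), u ∈ m.map (· + y) ↔ u + -y ∈ m := by
    intro m y u
    rw [List.mem_map]
    constructor
    · rintro ⟨a, ha, rfl⟩; simpa using ha
    · intro ha; exact ⟨_, ha, by simp⟩
  refine ⟨l'.map (· + z), h6.2.1, h6.2.2, fun u hu => ?_, fun u hu hq => ?_⟩
  · rw [hm, h3 _ hu, hm]; simp
  · exact h4 _ ((hm _ _ _).1 hu) hq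

lemma mem_ball_shift {u v : V d} {S : ℕ} : u + -v ∈ ball (0 : V d) S ↔ u ∈ ball v S := by
  simp [mem_ball, sub_eq_add_neg]

lemma mem_ball_comm {u v : V d} {S : ℕ} : u ∈ ball v S ↔ v ∈ ball u S := by
  simp only [mem_ball]
  exact forall_congr' fun i => by rw [abs_sub_comm]

lemma exists_cnt (hd : 1 ≤ d) (S : ℕ) (w : V d → ℝ) (v : V d) :
    ∃ k : ℕ, cnt S w v k < 2 * d * d := by
  obtain ⟨k, hk⟩ := exists_nat_ge (∑ u ∈ ball v S, |w u|)
  refine ⟨k, lt_of_eq_of_lt ?_ (by positivity : 0 < 2 * d * d)⟩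
  rw [cnt, Finset.card_eq_zero, Finset.filter_eq_empty_iff]
  intro u hu
  have := Finset.single_le_sum (f := fun u => |w u|) (fun u _ => abs_nonneg _) hu
  have h2 := neg_abs_le (w u)
  simp only [not_lt]
  linarith

noncomputable def Z (hd : 1 ≤ d) (S : ℕ) (w : V d → ℝ) (v : V d) : ℕ :=
  Nat.find (exists_cnt hd S w v)

lemma nat_le_tsum (p : ℕ → Prop) [DecidablePred p] (m : ℕ) (h : ∀ k < m, p k) :
    (m : ℝ≥0∞) ≤ ∑' k : ℕ, if p k then 1 else 0 := by
  refine le_trans ?_ (ENNReal.sum_le_tsum (Finset.range m))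
  rw [Finset.sum_congr rfl fun k hk => if_pos (h k (Finset.mem_range.1 hk))]
  simp

lemma Z_le (hd : 1 ≤ d) (S t : ℕ) (w : V d → ℝ) (v : V d) :
    (Z hd S w v : ℝ≥0∞) ≤ t + zt S t w v := by
  have h1 : ((Z hd S w v - t : ℕ) : ℝ≥0∞) ≤ zt S t w v := by
    unfold zt
    refine nat_le_tsum _ _ fun k hk => ?_
    exact not_lt.1 (Nat.find_min (exists_cnt hd S w v) (by unfold Z at hk; omega))
  calc (Z hd S w v : ℝ≥0∞) ≤ ((t + (Z hd S w v - t) : ℕ) : ℝ≥0∞) := by
        exact_mod_cast (by omega : Z hd S w v ≤ t + (Z hd S w v - t))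
    _ ≤ _ := by rw [Nat.cast_add]; exact add_le_add_right h1 _

lemma multi (hd : 1 ≤ d) {S : ℕ} (hS : Surg d (2 * d * d - 1) S) (w : V d → ℝ)
    (l : List (V d)) (hn : ((0 : V d) :: l).Nodup) (hc : List.IsChain Adj ((0 : V d) :: l))
    (A : Finset (V d)) (hA : ∀ v ∈ A, (0 : V d) ∉ ball v S) :
    ∃ (l' : List (V d)) (T : Finset (V d)), ((0 : V d) :: l').Nodup ∧
      List.IsChain Adj ((0 : V d) :: l') ∧ A ⊆ T ∧ T.card ≤ A.card * (2 * S + 1) ^ d ∧
      (∀ u ∈ T, ∃ v ∈ A, u ∈ ball v S) ∧ (∀ u, u ∉ T → (u ∈ l' ↔ u ∈ l)) ∧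
      ∀ u ∈ l', u ∈ T → ∃ v ∈ A, u ∈ ball v S ∧ -(Z hd S w v : ℝ) ≤ w u := by
  classical
  induction A using Finset.induction_on with
  | empty => exact ⟨l, ∅, hn, hc, by simp, by simp, by simp, by simp, by simp⟩
  | insert v A hv ih =>
    obtain ⟨l', T, h1, h2, h3, h4, h5, h6, h7⟩ :=
      ih fun u hu => hA u (Finset.mem_insert_of_mem hu)
    have hz : cnt S w v (Z hd S w v) < 2 * d * d := Nat.find_spec (exists_cnt hd S w v)
    obtain ⟨Q, U, hG, hvQ, hQ, hU⟩ := hS v ((ball v S).filter fun u => w u < -(Z hd S w v : ℝ))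
      (by unfold cnt at hz; omega)
    obtain ⟨l'', g1, g2, g3, g4⟩ := hG 0 l'
      (fun h => hA v (Finset.mem_insert_self _ _) (hQ h)) h1 h2
    have hmem : ∀ u, u ∈ T ∪ (ball v S).filter (· ∈ Q) ↔ u ∈ T ∨ u ∈ Q := by
      intro u
      simp only [Finset.mem_union, Finset.mem_filter]
      exact or_congr Iff.rfl ⟨fun h => h.2, fun h => ⟨hQ h, h⟩⟩
    refine ⟨l'', T ∪ (ball v S).filter (· ∈ Q), g1, g2, ?_, ?_, ?_, ?_, ?_⟩
    · intro u hu
      rw [hmem]
      rcases Finset.mem_insert.1 hu with rfl | hu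
      · exact Or.inr hvQ
      · exact Or.inl (h3 hu)
    · have := Finset.card_filter_le (ball v S) (· ∈ Q)
      rw [card_ball] at this
      refine (Finset.card_union_le _ _).trans ?_
      rw [Finset.card_insert_of_notMem hv, add_mul, one_mul]
      omega
    · intro u hu
      rcases (hmem u).1 hu with h | h
      · obtain ⟨x, hx, hx2⟩ := h5 u h
        exact ⟨x, Finset.mem_insert_of_mem hx, hx2⟩
      · exact ⟨v, Finset.mem_insert_self _ _, hQ h⟩
    · intro u hu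
      rw [hmem, not_or] at hu
      rw [g3 u hu.2, h6 u hu.1]
    · intro u hu hT
      by_cases hq : u ∈ Q
      · refine ⟨v, Finset.mem_insert_self _ _, hQ hq, ?_⟩
        by_contra hlt
        exact hU u (Finset.mem_filter.2 ⟨hQ hq, not_le.1 hlt⟩) (g4 u hu hq)
      · obtain ⟨x, hx, hx2⟩ := h7 u ((g3 u hq).1 hu) (((hmem u).1 hT).resolve_right hq)
        exact ⟨x, Finset.mem_insert_of_mem hx, hx2⟩

lemma sum_bound {S : ℕ} (z : V d → ℕ) (f : V d → ℝ) (A F : Finset (V d))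
    (h : ∀ u ∈ F, ∃ v ∈ A, u ∈ ball v S ∧ -(z v : ℝ) ≤ f u) :
    -∑ u ∈ F, f u ≤ (((2 * S + 1) ^ d * ∑ v ∈ A, z v : ℕ) : ℝ) := by
  classical
  have h1 : ∀ u ∈ F, -f u ≤ ∑ v ∈ A, if u ∈ ball v S then (z v : ℝ) else 0 := by
    intro u hu
    obtain ⟨v, hv, h2, h3⟩ := h u hu
    have := Finset.single_le_sum (f := fun v => if u ∈ ball v S then (z v : ℝ) else 0)
      (fun v _ => by positivity) hv
    rw [if_pos h2] at this
    linarith
  rw [← Finset.sum_neg_distrib]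
  refine (Finset.sum_le_sum h1).trans ?_
  rw [Finset.sum_comm, Nat.cast_mul, Nat.cast_sum, Finset.mul_sum]
  refine Finset.sum_le_sum fun v _ => ?_
  rw [← Finset.sum_filter, Finset.sum_const, nsmul_eq_mul]
  refine mul_le_mul_of_nonneg_right ?_ (Nat.cast_nonneg _)
  rw [← card_ball v S]
  exact_mod_cast Finset.card_le_card fun u hu => (Finset.mem_filter.1 hu).2

lemma ray_ball (e : Fin d × Bool) {s k S : ℕ} (h : ray e s ∈ ball (ray e k) S) :
    s ≤ k + S ∧ k ≤ s + S := by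
  have := mem_ball.1 h e.1
  unfold ray at this
  rw [abs_le] at this
  cases he : e.2 <;> simp [he] at this <;> omega

end Det

open Det

theorem surg_of_capsule {d : ℕ}
    (hc : ∀ S₀ : ℕ, ∃ (S : ℕ) (Q U : Set (V d)), Good Adj Q U ∧ (↑(ball (0 : V d) S₀) ⊆ Q) ∧
      Q ⊆ ↑(ball (0 : V d) S) ∧ ∀ u ∈ ball (0 : V d) S₀, u ∉ U) (j : ℕ) : ∃ S, Surg d j S := by
  classical
  have hc' : ∀ S₀ : ℕ, ∃ S : ℕ, S₀ ≤ S ∧ ∀ v : V d, ∃ Q U : Set (V d), Good Adj Q U ∧
      (↑(ball v S₀) ⊆ Q) ∧ Q ⊆ ↑(ball v S) ∧ (∀ u ∈ ball v S₀, u ∉ U) ∧ U ⊆ Q := by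
    intro S₀
    obtain ⟨S, Q, U, h1, h2, h3, h4⟩ := hc S₀
    have h5 : Good Adj Q (U ∩ Q) := by
      intro x l hx hn hch
      obtain ⟨l', g1, g2, g3, g4⟩ := h1 x l hx hn hch
      exact ⟨l', g1, g2, g3, fun u hu hq => ⟨g4 u hu hq, hq⟩⟩
    refine ⟨max S₀ S, le_max_left _ _, fun v => ⟨_, _, good_shift h5 v, ?_, ?_, ?_, ?_⟩⟩
    · intro u hu
      exact h2 (mem_ball_shift.2 hu)
    · intro u hu
      exact ball_mono v (le_max_right _ _) (mem_ball_shift.1 (h3 hu))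
    · intro u hu hU
      exact h4 _ (mem_ball_shift.2 hu) hU.1
    · intro u hu
      exact hu.2
  have key : ∀ j S₀ : ℕ, ∃ S : ℕ, S₀ ≤ S ∧ ∀ (v : V d) (D : Finset (V d)), D.card ≤ j →
      ∃ Q U : Set (V d), Good Adj Q U ∧ (↑(ball v S₀) ⊆ Q) ∧ Q ⊆ ↑(ball v S) ∧
        (∀ u ∈ ball v S₀, u ∉ U) ∧ ∀ u ∈ D, u ∉ U := by
    intro j
    induction j with
    | zero =>
      intro S₀
      obtain ⟨S, h1, h2⟩ := hc' S₀
      refine ⟨S, h1, fun v D hD => ?_⟩
      obtain ⟨Q, U, g1, g2, g3, g4, -⟩ := h2 v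
      rw [Nat.le_zero, Finset.card_eq_zero] at hD
      exact ⟨Q, U, g1, g2, g3, g4, by simp [hD]⟩
    | succ j ih =>
      intro S₀
      obtain ⟨S₁, h1, h2⟩ := hc' S₀
      obtain ⟨S₂, h3, h4⟩ := ih S₁
      refine ⟨S₂, h1.trans h3, fun v D hD => ?_⟩
      obtain ⟨Q, U, g1, g2, g3, g4, g5⟩ := h2 v
      by_cases hu : ∀ u ∈ D, u ∉ U
      · exact ⟨Q, U, g1, g2, g3.trans (Finset.coe_subset.2 (ball_mono v h3)), g4, hu⟩
      · push Not at hu
        obtain ⟨u, huD, huU⟩ := hu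
        obtain ⟨Q', U', k1, k2, k3, k4, k5⟩ := h4 v (D.erase u)
          (by rw [Finset.card_erase_of_mem huD]; omega)
        refine ⟨Q', U', k1, (Finset.coe_subset.2 (ball_mono v h1)).trans k2, k3,
          fun x hx => k4 x (ball_mono v h1 hx), fun x hx => ?_⟩
        by_cases hxu : x = u
        · subst hxu
          exact k4 x (g3 (g5 huU))
        · exact k5 x (Finset.mem_erase.2 ⟨hxu, hx⟩)
  obtain ⟨S, -, h⟩ := key j 0
  refine ⟨S, fun v D hD => ?_⟩
  obtain ⟨Q, U, g1, g2, g3, -, g5⟩ := h v D hD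
  exact ⟨Q, U, g1, g2 (self_mem_ball v 0), g3, g5⟩

theorem det_main {d : ℕ} (hd : 1 ≤ d) {S : ℕ} (hS : Surg d (2 * d * d - 1) S) (w : V d → ℝ)
    (J K C : ℝ) (hJ : 0 ≤ J) (hK : 0 < K) (n N t : ℕ) (h0 : ∀ v ∈ ball (0 : V d) S, -K ≤ w v)
    (hG : -(C * (n + N * (2 * S + 1) ^ d : ℕ)) ≤
      G (n + N * (2 * S + 1) ^ d) 0 fun v => clip J K (w v))
    (hN : (J + C) * (n + N * (2 * S + 1) ^ d : ℕ) ≤ K * N) :
    ENNReal.ofReal ((G (n + N * (2 * S + 1) ^ d) 0 fun v => clip J K (w v)) - G n 0 w) ≤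
      ENNReal.ofReal ((3 * J + t) * (N * (2 * S + 1) ^ d : ℕ)) +
        ((2 * S + 1) ^ d : ℕ) * GE (n + N * (2 * S + 1) ^ d) 0 (zt S t w) := by
  classical
  set b := (2 * S + 1) ^ d with hb
  set n' := n + N * b with hn'
  obtain ⟨l, hl, hGl⟩ := exists_G hd n' 0 fun v => clip J K (w v)
  have hln : l.Nodup := (List.nodup_cons.1 hl.2.1).2
  have hlc : l.toFinset.card = n' := by rw [List.toFinset_card_of_nodup hln, hl.1]
  rw [← List.sum_toFinset _ hln] at hGl
  have hcJ : ∀ x, clip J K x ≤ J := fun x => max_le (by linarith) (min_le_right _ _)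
  set A := l.toFinset.filter fun v => w v < -K with hA
  have hAN : A.card ≤ N := by
    have h1 : ∑ v ∈ l.toFinset, clip J K (w v) ≤
        ∑ v ∈ l.toFinset, (J - if w v < -K then K else 0) := by
      refine Finset.sum_le_sum fun v _ => ?_
      split_ifs with h
      · exact max_le (by linarith) ((min_le_left _ _).trans (by linarith))
      · simpa using hcJ _
    rw [Finset.sum_sub_distrib, ← Finset.sum_filter, Finset.sum_const, Finset.sum_const, hlc,
      nsmul_eq_mul, nsmul_eq_mul] at h1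
    have h2 : K * A.card ≤ K * N := by nlinarith
    exact_mod_cast le_of_mul_le_mul_left h2 hK
  obtain ⟨l', T, h1, h2, h3, h4, -, h6, h7⟩ := multi hd hS w l hl.2.1 hl.2.2 A (by
    intro v hv h
    have := h0 v (mem_ball_comm.1 h)
    have := (Finset.mem_filter.1 hv).2
    linarith)
  have hT : T.card ≤ N * b := h4.trans (Nat.mul_le_mul_right _ hAN)
  have hln' : l'.Nodup := (List.nodup_cons.1 h1).2
  have hlc' : l'.toFinset.card = l'.length := List.toFinset_card_of_nodup hln'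
  have hsd : l'.toFinset \ T = l.toFinset \ T := by
    ext u
    simp only [Finset.mem_sdiff, List.mem_toFinset]
    exact ⟨fun h => ⟨(h6 u h.2).1 h.1, h.2⟩, fun h => ⟨(h6 u h.2).2 h.1, h.2⟩⟩
  have e1 := Finset.card_sdiff_add_card_inter l.toFinset T
  have e2 := Finset.card_sdiff_add_card_inter l'.toFinset T
  have e3 : (l.toFinset ∩ T).card ≤ T.card := Finset.card_le_card Finset.inter_subset_right
  have e4 : (l'.toFinset ∩ T).card ≤ T.card := Finset.card_le_card Finset.inter_subset_right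
  rw [hsd] at e2
  have hsaw : IsSAW l'.length 0 l' := ⟨rfl, h1, h2⟩
  have g1 := le_G (hsaw.take (m := n) (by omega)) w
  have g2 : ((l'.take n).map fun u => min (w u) J).sum ≤ ((l'.take n).map w).sum :=
    List.sum_le_sum fun u _ => min_le_left _ _
  have g3 : (l'.map fun u => min (w u) J).sum = ((l'.take n).map fun u => min (w u) J).sum +
      ((l'.drop n).map fun u => min (w u) J).sum := by
    rw [← List.sum_append, ← List.map_append, List.take_append_drop]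
  have g4 : ((l'.drop n).map fun u => min (w u) J).sum ≤ 2 * (N * b : ℕ) * J := by
    have := List.sum_le_card_nsmul ((l'.drop n).map fun u => min (w u) J) J (by
      intro x hx
      obtain ⟨u, -, rfl⟩ := List.mem_map.1 hx
      exact min_le_right _ _)
    refine this.trans ?_
    rw [nsmul_eq_mul, List.length_map, List.length_drop]
    refine mul_le_mul_of_nonneg_right ?_ hJ
    exact_mod_cast (by omega : l'.length - n ≤ 2 * (N * b))
  rw [← List.sum_toFinset _ hln', ← Finset.sum_inter_add_sum_sdiff l'.toFinset T, hsd] at g3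
  have g5 : ∑ u ∈ l.toFinset \ T, min (w u) J = ∑ u ∈ l.toFinset \ T, clip J K (w u) := by
    refine Finset.sum_congr rfl fun u hu => ?_
    obtain ⟨k1, k2⟩ := Finset.mem_sdiff.1 hu
    have k3 : ¬ w u < -K := fun h => k2 (h3 (Finset.mem_filter.2 ⟨k1, h⟩))
    exact (max_eq_right (le_min (not_lt.1 k3) (by linarith))).symm
  have g6 : ∑ u ∈ l.toFinset ∩ T, clip J K (w u) ≤ (N * b : ℕ) * J := by
    refine (Finset.sum_le_card_nsmul _ _ J fun u _ => hcJ _).trans ?_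
    rw [nsmul_eq_mul]
    exact mul_le_mul_of_nonneg_right (by exact_mod_cast e3.trans hT) hJ
  have g7 := sum_bound (S := S) (Z hd S w) (fun u => min (w u) J) A (l'.toFinset ∩ T) (by
    intro u hu
    obtain ⟨k1, k2⟩ := Finset.mem_inter.1 hu
    obtain ⟨v, hv, k3, k4⟩ := h7 u (List.mem_toFinset.1 k1) k2
    exact ⟨v, hv, k3, le_min k4 ((neg_nonpos.2 (Nat.cast_nonneg _)).trans hJ)⟩)
  rw [← Finset.sum_inter_add_sum_sdiff l.toFinset T] at hGl
  have g8 : (G n' 0 fun v => clip J K (w v)) - G n 0 w ≤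
      3 * J * (N * b : ℕ) + ((b * ∑ v ∈ A, Z hd S w v : ℕ) : ℝ) := by linarith
  have g9 : ((∑ v ∈ A, Z hd S w v : ℕ) : ℝ≥0∞) ≤ (N * t : ℕ) + GE n' 0 (zt S t w) := by
    rw [Nat.cast_sum]
    refine (Finset.sum_le_sum fun v _ => Z_le hd S t w v).trans ?_
    rw [Finset.sum_add_distrib, Finset.sum_const, nsmul_eq_mul]
    refine add_le_add (by exact_mod_cast Nat.mul_le_mul_right t hAN) ?_
    refine le_trans ?_ (le_GE hl _)
    rw [← List.sum_toFinset _ hln]
    exact Finset.sum_le_sum_of_subset (Finset.filter_subset _ _)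
  refine (ENNReal.ofReal_le_ofReal g8).trans ?_
  rw [ENNReal.ofReal_add (by positivity) (Nat.cast_nonneg _), ENNReal.ofReal_natCast,
    add_mul, ENNReal.ofReal_add (by positivity) (by positivity), add_assoc]
  refine add_le_add_right ?_ _
  have g10 : ENNReal.ofReal ((t : ℝ) * (N * b : ℕ)) = (b : ℝ≥0∞) * (N * t : ℕ) := by
    rw [← Nat.cast_mul, ENNReal.ofReal_natCast, ← Nat.cast_mul]
    congr 1
    ring
  rw [g10, ← mul_add, Nat.cast_mul]
  exact mul_le_mul_right g9 _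

theorem det_ui {d : ℕ} (hd : 1 ≤ d) {S : ℕ} (hS : Surg d (2 * d * d - 1) S) (w : V d → ℝ)
    (n t : ℕ) :
    ENNReal.ofReal (-G n 0 w) ≤ S * rt S w + ((2 * S + 1) ^ d : ℕ) *
      ∑ e : Fin d × Bool, ∑ k ∈ Finset.range (n + 2 * S + 3), (t + zt S t w (ray e k)) := by
  classical
  have hex : ∃ k : ℕ, ¬ ∀ e : Fin d × Bool, ∃ t ∈ Finset.Icc 1 S, w (ray e t) < -(k : ℝ) := by
    obtain ⟨k, hk⟩ := exists_nat_ge (∑ t ∈ Finset.Icc 1 S, |w (ray (⟨0, hd⟩, true) t)|)
    refine ⟨k, fun h => ?_⟩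
    obtain ⟨s, hs, h2⟩ := h (⟨0, hd⟩, true)
    have := Finset.single_le_sum (f := fun t => |w (ray (⟨0, hd⟩, true) t)|)
      (fun u _ => abs_nonneg _) hs
    have h3 := neg_abs_le (w (ray (⟨0, hd⟩, true) s))
    linarith
  set R := Nat.find hex with hR
  have hRr : (R : ℝ≥0∞) ≤ rt S w := by
    unfold rt
    convert nat_le_tsum (fun k : ℕ => ∀ e : Fin d × Bool, ∃ t ∈ Finset.Icc 1 S,
      w (ray e t) < -(k : ℝ)) R fun k hk => not_not.1 (Nat.find_min hex hk)
  have hRe := Nat.find_spec hex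
  rw [← hR] at hRe
  push Not at hRe
  obtain ⟨e, he⟩ := hRe
  have hl := isSAW_ray e 0 (n + 2 * S + 2)
  simp only [add_zero] at hl
  set A := (Finset.Ioc S (n + S + 1)).image (ray e) with hA
  obtain ⟨l', T, h1, h2, h3, -, h5, h6, h7⟩ := multi hd hS w _ hl.2.1 hl.2.2 A (by
    intro v hv h
    obtain ⟨k, hk, rfl⟩ := Finset.mem_image.1 hv
    rw [← ray_zero e] at h
    have := ray_ball e h
    have := Finset.mem_Ioc.1 hk
    omega)
  have hend : ray e (n + 2 * S + 2) ∈ l' := by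
    rw [h6]
    · exact List.mem_map.2 ⟨n + 2 * S + 1, by simp, rfl⟩
    · intro h
      obtain ⟨v, hv, k1⟩ := h5 _ h
      obtain ⟨k, hk, rfl⟩ := Finset.mem_image.1 hv
      have := ray_ball e k1
      have := Finset.mem_Ioc.1 hk
      omega
  have hlen : n ≤ l'.length := by
    have k1 := chain_mem_ball 0 l' h2 _ hend
    rw [← ray_zero e] at k1
    have := ray_ball e k1
    omega
  have hsaw : IsSAW n 0 (l'.take n) := IsSAW.take (n := l'.length) ⟨rfl, h1, h2⟩ hlen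
  have g1 := le_G hsaw w
  have hnd : (l'.take n).Nodup := (List.nodup_cons.1 hsaw.2.1).2
  rw [← List.sum_toFinset _ hnd, ← Finset.sum_inter_add_sum_sdiff _ T] at g1
  have g2 := sum_bound (S := S) (Z hd S w) w A ((l'.take n).toFinset ∩ T) (by
    intro u hu
    obtain ⟨k1, k2⟩ := Finset.mem_inter.1 hu
    exact h7 u (List.mem_of_mem_take (List.mem_toFinset.1 k1)) k2)
  have g3 : (l'.take n).toFinset \ T ⊆ (Finset.Icc 1 S).image (ray e) := by
    intro u hu
    obtain ⟨k1, k2⟩ := Finset.mem_sdiff.1 hu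
    have k3 := List.mem_toFinset.1 k1
    obtain ⟨k, -, rfl⟩ := List.mem_map.1 ((h6 u k2).1 (List.mem_of_mem_take k3))
    have k4 := hsaw.mem_ball _ k3
    rw [← ray_zero e] at k4
    have k5 := ray_ball e k4
    refine Finset.mem_image.2 ⟨k + 1, Finset.mem_Icc.2 ⟨by omega, ?_⟩, rfl⟩
    by_contra k6
    exact k2 (h3 (Finset.mem_image.2 ⟨k + 1, Finset.mem_Ioc.2 ⟨by omega, by omega⟩, rfl⟩))
  have g4 : -∑ u ∈ (l'.take n).toFinset \ T, w u ≤ ((S * R : ℕ) : ℝ) := by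
    rw [← Finset.sum_neg_distrib]
    refine (Finset.sum_le_card_nsmul _ _ (R : ℝ) fun u hu => ?_).trans ?_
    · obtain ⟨k, hk, rfl⟩ := Finset.mem_image.1 (g3 hu)
      have := he k hk
      linarith
    · rw [nsmul_eq_mul, Nat.cast_mul]
      refine mul_le_mul_of_nonneg_right ?_ (Nat.cast_nonneg _)
      have := (Finset.card_le_card g3).trans Finset.card_image_le
      exact_mod_cast (by simpa using this)
  have g5 : -G n 0 w ≤ ((S * R + (2 * S + 1) ^ d * ∑ v ∈ A, Z hd S w v : ℕ) : ℝ) := by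
    rw [Nat.cast_add]; linarith
  refine (ENNReal.ofReal_le_ofReal g5).trans ?_
  rw [ENNReal.ofReal_natCast, Nat.cast_add, Nat.cast_mul, Nat.cast_mul]
  refine add_le_add (mul_le_mul_right hRr _) (mul_le_mul_right ?_ _)
  refine le_trans ?_ (Finset.single_le_sum (f := fun e : Fin d × Bool =>
    ∑ k ∈ Finset.range (n + 2 * S + 3), ((t : ℝ≥0∞) + zt S t w (ray e k)))
    (fun _ _ => zero_le) (Finset.mem_univ e))
  rw [Nat.cast_sum, hA, Finset.sum_image fun a _ b _ h => ray_inj e h]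
  refine (Finset.sum_le_sum fun k _ => Z_le hd S t w _).trans ?_
  refine Finset.sum_le_sum_of_subset fun k hk => ?_
  have := Finset.mem_Ioc.1 hk
  exact Finset.mem_range.2 (by omega)

end Pool.Agent.H742Z.GP
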